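import Pool.Agent.R278.Rot.Renorm

/-!
# A strong Gurarii space with an equivalent rotund norm
-/

namespace Pool.Agent.Results.MP_5544e1_an.RotundRenorming

open Pool.Agent.R278.Rot

/-- Strong Gurarii spaces: isometric embeddings of subspaces of finite-dimensional spaces
extend. -/
def StrongGurarii (X : Type) [NormedAddCommGroup X] [NormedSpace ℝ X] : Prop :=
  ∀ (F : Type) [NormedAddCommGroup F] [NormedSpace ℝ F] [FiniteDimensional ℝ F]
    (E : Submodule ℝ F) (f : E →ₗᵢ[ℝ] X), ∃ g : F →ₗᵢ[ℝ] X, ∀ x : E, g (x : F) = f x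

/-- `X` has an equivalent rotund norm. -/
def HasRotundRenorming (X : Type) [NormedAddCommGroup X] [NormedSpace ℝ X] : Prop :=
  ∃ q : Seminorm ℝ X, (∃ a b : ℝ, 0 < a ∧ ∀ x, a * ‖x‖ ≤ q x ∧ q x ≤ b * ‖x‖) ∧
    ∀ x y, q (x + y) = 2 * q x → q (x + y) = 2 * q y → x = y

/-- There is a strong Gurarii Banach space with an equivalent rotund norm. -/
theorem result : ∃ (X : Type) (_ : NormedAddCommGroup X) (_ : NormedSpace ℝ X)
    (_ : CompleteSpace X), StrongGurarii X ∧ HasRotundRenorming X :=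
  ⟨XX, inferInstance, inferInstance, inferInstance, fun F _ _ _ E f => strongGurarii F E f,
    exists_rotund⟩

end Pool.Agent.Results.MP_5544e1_an.RotundRenorming
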